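import Pool.Agent.H15.AV.Slc
import Pool.Agent.H15.AV.LH

/-!
# Continuity in `(t, x, v)` of the Landau operator (MODULE EL_Cnv)

`conv_contOn`: dominated convergence: near `(t, x, v)` one has `t ∈ Icc T₀ T₁`, `‖v‖ ≤ R`, and `|k z h(t,x,v-z)| ≤ A D (1+‖v‖)^(d+3) wt d z` (`Kern.le` in H25/Kin/Conv.lean); for fixed `z` the integrand is continuous.
`q_contOn`: `Pool.Agent.H82.LK.landauQ_eq` for the `Nice` function `G = f t x + δ gau` (copy of `lh_nice_add` from H15/AV/LH.lean): finite sum of products of `conv (landauA i j) G`, `pd i (pd j G)`, `G`, `conv (landauA i j) (pd i (pd j G))`;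
`pd i (pd j (f t x)) v` is a continuous function of `(t,x,v)` (it is `fderiv (fderiv (unc f))` at `(t,x,v)` applied to `iv e_i`, `iv e_j`: see `IsClassicalSol.slice_fderiv2` in H25/Kin/Slice.lean and `fderiv_pd`) with the bound `decay_deriv`.
-/

set_option autoImplicit false

open MeasureTheory Set Filter Topology Pool.Agent.H25.Kin Pool.Agent.H15.AV

namespace Pool.Agent.H15.EL

variable {d : ℕ} {γ T : ℝ} {Q f : ℝ → Vec d → Vec d → ℝ}

theorem conv_contOn {k : Vec d → ℝ} {A : ℝ} (hk : Kern k A) {h : ℝ → Vec d → Vec d → ℝ}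
    (hc : ContinuousOn (unc h) (Ioo 0 T ×ˢ univ))
    (hb : ∀ T₀ > 0, ∀ T₁ < T, ∃ D, ∀ t ∈ Icc T₀ T₁, ∀ x v, |h t x v| ≤ D * ((1 + ‖v‖) ^ (d + 3))⁻¹) :
    ContinuousOn (fun p : ℝ × Vec d × Vec d => conv k (h p.1 p.2.1) p.2.2) (Ioo 0 T ×ˢ univ) := by
  rintro ⟨t, x, v⟩ ⟨ht, -⟩
  have ht0 : 0 < t := ht.1
  have htT : t < T := ht.2
  obtain ⟨D, hD⟩ := hb (t / 2) (by linarith) ((t + T) / 2) (by linarith)
  have hD' : ∀ s ∈ Icc (t / 2) ((t + T) / 2), ∀ y w,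
      ‖h s y w‖ ≤ |D| * ((1 + ‖w‖) ^ (d + 3))⁻¹ := by
    intro s hs y w
    rw [Real.norm_eq_abs]
    refine (hD s hs y w).trans ?_
    exact mul_le_mul_of_nonneg_right (le_abs_self D) (inv_nonneg.2 (pow_nonneg (w_pos w).le _))
  have hint : Integrable (fun z => A * |D| * (2 + ‖v‖) ^ (d + 3) * wt d z) :=
    integrable_wt.const_mul _
  unfold conv
  refine continuousWithinAt_of_dominated
    (bound := fun z => A * |D| * (2 + ‖v‖) ^ (d + 3) * wt d z) ?_ ?_ hint ?_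
  · filter_upwards [self_mem_nhdsWithin] with p hp
    have hcp : Continuous (h p.1 p.2.1) := by
      have h1 : Continuous fun w : Vec d => (p.1, p.2.1, w) := by fun_prop
      exact hc.comp_continuous h1 fun w => ⟨hp.1, mem_univ _⟩
    exact hk.aesm hcp p.2.2
  · have hU : Ioo (t / 2) ((t + T) / 2) ×ˢ ((univ : Set (Vec d)) ×ˢ Metric.ball v 1) ∈
        𝓝 (t, x, v) := by
      refine prod_mem_nhds (Ioo_mem_nhds (by linarith) (by linarith)) ?_
      exact prod_mem_nhds univ_mem (Metric.ball_mem_nhds v one_pos)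
    filter_upwards [mem_nhdsWithin_of_mem_nhds hU] with p hp
    refine Eventually.of_forall fun z => ?_
    refine (hk.le (abs_nonneg D) (hD' p.1 ⟨hp.1.1.le, hp.1.2.le⟩ p.2.1) p.2.2 z).trans ?_
    have hball : dist p.2.2 v < 1 := hp.2.2
    have h1 : 1 + ‖p.2.2‖ ≤ 2 + ‖v‖ := by
      have h2 : ‖p.2.2‖ ≤ ‖p.2.2 - v‖ + ‖v‖ := by simpa using norm_add_le (p.2.2 - v) v
      have h3 : ‖p.2.2 - v‖ < 1 := by rw [← dist_eq_norm]; exact hball
      linarith
    have h4 := pow_le_pow_left₀ (w_pos p.2.2).le h1 (d + 3)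
    have h5 := wt_nonneg z
    have h6 := mul_nonneg hk.nonneg (abs_nonneg D)
    gcongr
  · refine Eventually.of_forall fun z => ?_
    have h1 : Continuous fun p : ℝ × Vec d × Vec d => (p.1, p.2.1, p.2.2 - z) := by fun_prop
    have h2 : ContinuousWithinAt (fun p : ℝ × Vec d × Vec d => unc h (p.1, p.2.1, p.2.2 - z))
        (Ioo 0 T ×ˢ univ) (t, x, v) :=
      (hc.comp h1.continuousOn fun p hp => ⟨hp.1, mem_univ _⟩) (t, x, v) ⟨ht, mem_univ _⟩
    exact h2.const_smul (k z)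

private theorem cnv_nice_add {g : Vec d → ℝ} (hg : Nice g) (δ : ℝ) :
    Nice fun v => g v + δ * gau v := by
  have hm := nice_gau (d := d)
  have e1 : fderiv ℝ (fun v => g v + δ * gau v) = fun v => fderiv ℝ g v + δ • fderiv ℝ gau v := by
    funext v
    exact ((hg.diff v).hasFDerivAt.add ((hm.diff v).hasFDerivAt.const_mul δ)).fderiv
  have e2 : fderiv ℝ (fderiv ℝ (fun v => g v + δ * gau v)) =
      fun v => fderiv ℝ (fderiv ℝ g) v + δ • fderiv ℝ (fderiv ℝ gau) v := by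
    rw [e1]
    funext v
    exact ((hg.diff1 v).hasFDerivAt.add ((hm.diff1 v).hasFDerivAt.const_smul δ)).fderiv
  have r : ∀ {E : Type} [NormedAddCommGroup E] [NormedSpace ℝ E] (h : Vec d → E), RD h →
      RD fun v => δ • h v := by
    intro E _ _ h hh
    refine hh.mono |δ| fun v => ?_
    rw [norm_smul, Real.norm_eq_abs]
  refine ⟨hg.smooth.add (contDiff_const.mul hm.smooth), ?_, ?_, ?_⟩
  · exact hg.rd.add (r _ hm.rd)
  · rw [e1]; exact hg.rd1.add (r _ hm.rd1)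
  · rw [e2]; exact hg.rd2.add (r _ hm.rd2)

private theorem cnv_fd1 {g : Vec d → ℝ} (hg : Nice g) (δ : ℝ) (v : Vec d) :
    fderiv ℝ (fun v => g v + δ * gau v) v = fderiv ℝ g v + δ • fderiv ℝ gau v :=
  ((hg.diff v).hasFDerivAt.add (((nice_gau (d := d)).diff v).hasFDerivAt.const_mul δ)).fderiv

private theorem cnv_fd2 {g : Vec d → ℝ} (hg : Nice g) (δ : ℝ) (v : Vec d) :
    fderiv ℝ (fderiv ℝ (fun v => g v + δ * gau v)) v =
      fderiv ℝ (fderiv ℝ g) v + δ • fderiv ℝ (fderiv ℝ gau) v := by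
  have e1 : fderiv ℝ (fun v => g v + δ * gau v) = fun v => fderiv ℝ g v + δ • fderiv ℝ gau v :=
    funext fun v => cnv_fd1 hg δ v
  rw [e1]
  exact ((hg.diff1 v).hasFDerivAt.add
    (((nice_gau (d := d)).diff1 v).hasFDerivAt.const_smul δ)).fderiv

private theorem cnv_pdpd {g : Vec d → ℝ} (hg : Nice g) (i j : Fin d) (v : Vec d) :
    pd i (pd j g) v = fderiv ℝ (fderiv ℝ g) v (Pi.single i 1) (Pi.single j 1) := by
  have h := hg.fderiv_pd j v
  unfold pd at h ⊢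
  rw [h]
  rfl

private theorem cnv_pdpd_le {g : Vec d → ℝ} (hg : Nice g) (i j : Fin d) (v : Vec d) :
    |pd i (pd j g) v| ≤ ‖fderiv ℝ (fderiv ℝ g) v‖ := by
  rw [cnv_pdpd hg]
  have h1 := (fderiv ℝ (fderiv ℝ g) v (Pi.single i 1)).le_opNorm (Pi.single j 1)
  have h2 := (fderiv ℝ (fderiv ℝ g) v).le_opNorm (Pi.single i 1)
  rw [norm_single_one, mul_one] at h1 h2
  exact h1.trans h2

private theorem cnv_pdpd_add {g : Vec d → ℝ} (hg : Nice g) (δ : ℝ) (i j : Fin d) (v : Vec d) :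
    pd i (pd j fun v => g v + δ * gau v) v = pd i (pd j g) v + δ * pd i (pd j gau) v := by
  rw [cnv_pdpd (cnv_nice_add hg δ), cnv_fd2 hg, cnv_pdpd hg, cnv_pdpd nice_gau]
  simp

private theorem cnv_pdpd_cont {g : Vec d → ℝ} (hg : Nice g) (i j : Fin d) :
    Continuous (pd i (pd j g)) := (hg.pd_cont1 j).clm_apply continuous_const

private theorem cnv_slice2 (hf : IsClassicalSol T Q f) {t : ℝ} (ht : t ∈ Ioo 0 T)
    (x v w₁ w₂ : Vec d) : fderiv ℝ (fderiv ℝ (f t x)) v w₁ w₂ =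
      fderiv ℝ (fderiv ℝ (unc f)) (t, x, v) (iv d w₁) (iv d w₂) := by
  have e0 : fderiv ℝ (f t x) = fun v => ((ContinuousLinearMap.compL ℝ (Vec d)
      (ℝ × Vec d × Vec d) ℝ).flip (iv d)) (fderiv ℝ (unc f) ((t, x, (0 : Vec d)) + iv d v)) := by
    funext w
    rw [hf.slice_fderiv ht x w]
    have e : (t, x, (0 : Vec d)) + iv d w = (t, x, w) := by simp [iv_apply]
    rw [e]
    rfl
  have h1 : HasFDerivAt (fderiv ℝ (unc f)) (fderiv ℝ (fderiv ℝ (unc f)) (t, x, v)) (t, x, v) :=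
    (((hf.cda ht x v).fderiv_right (m := 1) (by norm_num)).differentiableAt
      (by norm_num)).hasFDerivAt
  have e : (t, x, (0 : Vec d)) + iv d v = (t, x, v) := by simp [iv_apply]
  have h2 : HasFDerivAt (fderiv ℝ (unc f)) (fderiv ℝ (fderiv ℝ (unc f)) (t, x, v))
      ((t, x, (0 : Vec d)) + iv d v) := by
    rw [e]; exact h1
  have h3 := h2.comp v (aff_hasFDerivAt t x v)
  have h4 := (((ContinuousLinearMap.compL ℝ (Vec d)
      (ℝ × Vec d × Vec d) ℝ).flip (iv d)).hasFDerivAt).comp v h3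
  rw [e0]
  have h5 := h4.fderiv
  simp only [Function.comp_def] at h5
  rw [h5]
  rfl

private theorem cnv_pdpd_contOn (hf : IsClassicalSol T Q f) (i j : Fin d) :
    ContinuousOn (unc fun t x => pd i (pd j (f t x))) (Ioo 0 T ×ˢ univ) := by
  have h0 : IsOpen (Ioo 0 T ×ˢ (univ : Set (Vec d × Vec d))) := isOpen_Ioo.prod isOpen_univ
  have h1 : ContDiffOn ℝ 1 (fderiv ℝ (unc f)) (Ioo 0 T ×ˢ univ) :=
    hf.smooth.fderiv_of_isOpen h0 (by norm_num)
  have h2 : ContinuousOn (fderiv ℝ (fderiv ℝ (unc f))) (Ioo 0 T ×ˢ univ) :=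
    h1.continuousOn_fderiv_of_isOpen h0 (by norm_num)
  have h3 : ContinuousOn (fun p => fderiv ℝ (fderiv ℝ (unc f)) p (iv d (Pi.single i 1))
      (iv d (Pi.single j 1))) (Ioo 0 T ×ˢ univ) :=
    (h2.clm_apply continuousOn_const).clm_apply continuousOn_const
  refine h3.congr fun p hp => ?_
  have ht : p.1 ∈ Ioo 0 T := hp.1
  exact (cnv_pdpd (hf.nice ht p.2.1) i j p.2.2).trans
    (cnv_slice2 hf ht p.2.1 p.2.2 (Pi.single i 1) (Pi.single j 1))

theorem q_contOn (h1 : -2 < γ) (h2 : γ ≤ 0) (hf : IsClassicalSol T Q f) (δ : ℝ) :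
    ContinuousOn (fun p : ℝ × Vec d × Vec d =>
      landauQ γ (fun w => f p.1 p.2.1 w + δ * gau w) p.2.2) (Ioo 0 T ×ˢ univ) := by
  have hm := nice_gau (d := d)
  -- the function `G`
  have hfc : ContinuousOn (unc f) (Ioo 0 T ×ˢ univ) := hf.smooth.continuousOn
  have hGc : ContinuousOn (unc fun t x w => f t x w + δ * gau w) (Ioo 0 T ×ˢ univ) := by
    have h3 : Continuous fun p : ℝ × Vec d × Vec d => δ * gau p.2.2 :=
      continuous_const.mul (hm.cont.comp (by fun_prop))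
    exact hfc.add h3.continuousOn
  -- the second derivatives
  have hPc : ∀ i j : Fin d, ContinuousOn
      (unc fun t x => pd i (pd j fun w => f t x w + δ * gau w)) (Ioo 0 T ×ˢ univ) := by
    intro i j
    have h3 : Continuous fun p : ℝ × Vec d × Vec d => δ * pd i (pd j gau) p.2.2 :=
      continuous_const.mul ((cnv_pdpd_cont hm i j).comp (by fun_prop))
    refine ((cnv_pdpd_contOn hf i j).add h3.continuousOn).congr fun p hp => ?_
    have ht : p.1 ∈ Ioo 0 T := hp.1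
    exact cnv_pdpd_add (hf.nice ht p.2.1) δ i j p.2.2
  -- bounds
  have hGb : ∀ T₀ > 0, ∀ T₁ < T, ∃ D, ∀ t ∈ Icc T₀ T₁, ∀ x v,
      |f t x v + δ * gau v| ≤ D * ((1 + ‖v‖) ^ (d + 3))⁻¹ := by
    intro T₀ hT₀ T₁ hT₁
    obtain ⟨C, hC⟩ := hf.decay T₁ hT₁ (d + 3)
    obtain ⟨a, ha0, ha⟩ := hm.rd.bound (d + 3)
    refine ⟨C + |δ| * a, fun t ht x v => ?_⟩
    have ht' : t ∈ Ico 0 T := ⟨hT₀.le.trans ht.1, ht.2.trans_lt hT₁⟩
    have e1 := hC t ⟨ht'.1, ht.2⟩ x v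
    have e2 : |f t x v| ≤ C * ((1 + ‖v‖) ^ (d + 3))⁻¹ := by
      rw [abs_of_nonneg (hf.nonneg t ht' x v), ← div_eq_mul_inv,
        le_div_iff₀ (pow_pos (w_pos v) _), mul_comm]
      exact e1
    have e3 : |δ * gau v| ≤ |δ| * (a * ((1 + ‖v‖) ^ (d + 3))⁻¹) := by
      rw [abs_mul]
      exact mul_le_mul_of_nonneg_left (ha v) (abs_nonneg δ)
    calc |f t x v + δ * gau v| ≤ |f t x v| + |δ * gau v| := abs_add_le _ _
      _ ≤ C * ((1 + ‖v‖) ^ (d + 3))⁻¹ + |δ| * (a * ((1 + ‖v‖) ^ (d + 3))⁻¹) := add_le_add e2 e3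
      _ = (C + |δ| * a) * ((1 + ‖v‖) ^ (d + 3))⁻¹ := by ring
  have hPb : ∀ i j : Fin d, ∀ T₀ > 0, ∀ T₁ < T, ∃ D, ∀ t ∈ Icc T₀ T₁, ∀ x v,
      |pd i (pd j fun w => f t x w + δ * gau w) v| ≤ D * ((1 + ‖v‖) ^ (d + 3))⁻¹ := by
    intro i j T₀ hT₀ T₁ hT₁
    obtain ⟨C, hC⟩ := hf.decay_deriv T₀ hT₀ T₁ hT₁ (d + 3)
    obtain ⟨a, ha0, ha⟩ := hm.rd2.bound (d + 3)
    refine ⟨C + |δ| * a, fun t ht x v => ?_⟩
    have ht' : t ∈ Ioo 0 T := ⟨hT₀.trans_le ht.1, ht.2.trans_lt hT₁⟩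
    have e1 := hC t ht x v
    have e2 : |pd i (pd j (f t x)) v| ≤ C * ((1 + ‖v‖) ^ (d + 3))⁻¹ := by
      rw [← div_eq_mul_inv, le_div_iff₀ (pow_pos (w_pos v) _), mul_comm]
      refine le_trans ?_ e1
      refine mul_le_mul_of_nonneg_left ?_ (pow_nonneg (w_pos v).le _)
      have a1 := cnv_pdpd_le (hf.nice ht' x) i j v
      have a2 := hf.slice_fderiv2 ht' x v
      have a3 := norm_nonneg (fderiv ℝ (unc f) (t, x, v))
      linarith
    have e3 : |δ * pd i (pd j gau) v| ≤ |δ| * (a * ((1 + ‖v‖) ^ (d + 3))⁻¹) := by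
      rw [abs_mul]
      exact mul_le_mul_of_nonneg_left ((cnv_pdpd_le hm i j v).trans (ha v)) (abs_nonneg δ)
    rw [cnv_pdpd_add (hf.nice ht' x) δ i j v]
    calc |pd i (pd j (f t x)) v + δ * pd i (pd j gau) v|
        ≤ |pd i (pd j (f t x)) v| + |δ * pd i (pd j gau) v| := abs_add_le _ _
      _ ≤ C * ((1 + ‖v‖) ^ (d + 3))⁻¹ + |δ| * (a * ((1 + ‖v‖) ^ (d + 3))⁻¹) := add_le_add e2 e3
      _ = (C + |δ| * a) * ((1 + ‖v‖) ^ (d + 3))⁻¹ := by ring
  have hkey : ContinuousOn (fun p : ℝ × Vec d × Vec d => ∑ i, ∑ j,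
      (conv (fun z => landauA γ z i j) (fun w => f p.1 p.2.1 w + δ * gau w) p.2.2 *
        pd i (pd j fun w => f p.1 p.2.1 w + δ * gau w) p.2.2 -
      (f p.1 p.2.1 p.2.2 + δ * gau p.2.2) * conv (fun z => landauA γ z i j)
        (pd i (pd j fun w => f p.1 p.2.1 w + δ * gau w)) p.2.2)) (Ioo 0 T ×ˢ univ) := by
    refine continuousOn_finsetSum _ fun i _ => continuousOn_finsetSum _ fun j _ => ?_
    have k := kern_landauA (d := d) h1 h2 i j
    have c1 := conv_contOn (T := T) k (h := fun t x w => f t x w + δ * gau w) hGc hGb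
    have c2 := conv_contOn (T := T) k
      (h := fun t x => pd i (pd j fun w => f t x w + δ * gau w)) (hPc i j) (hPb i j)
    exact (c1.mul (hPc i j)).sub (hGc.mul c2)
  refine hkey.congr fun p hp => ?_
  have ht : p.1 ∈ Ioo 0 T := hp.1
  exact Pool.Agent.H82.LK.landauQ_eq h1 h2 (cnv_nice_add (hf.nice ht p.2.1) δ) p.2.2

end Pool.Agent.H15.EL
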