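import Pool.Agent.H37.LN.Defs
import Pool.Agent.H15.EL.Cnv

/-!
# Continuity and integrability of the dissipation (MODULE EL_Cnd)

`dl_contOn`: `cont_int` (H15/AV/Slc.lean, applied with the index set `Ioo 0 T`) with `G t x v = landauQ γ (f t x + δ gau) v * log (f t x v + δ gau v)`: continuous by `q_contOn`; bound: `landau_rem` (with `sol_unice`) and `hf.Q_le` give
`|landauQ γ (f t x + δ gau) v| ≤ K (1+‖v‖)^(-(d+3))` for `t ∈ [T₀,T₁]`, and `|log (f + δ gau)| ≤ K' (1+‖v‖)^2` (see `decS` of `ent_tsol` in H15/AV/Ent.lean).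
`dl_bd`: the same bound integrated. `dl_int`: continuity and boundedness in `x`, `muD d` is a finite measure. `dl_ii`: the function `t ↦ ∫ DL ∂muD` is continuous on `Icc t₁ t₂` (`continuousOn_of_dominated` with a constant bound).
-/

set_option autoImplicit false

open MeasureTheory Set Filter Topology Pool.Agent.H25.Kin Pool.Agent.H15.AV Pool.Agent.H37.LN

namespace Pool.Agent.H15.EL

variable {d : ℕ} {γ T : ℝ} {f : ℝ → Vec d → Vec d → ℝ}

private theorem Cnd_gau_pos (v : Vec d) : 0 < gau v := Real.exp_pos _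

private theorem Cnd_gau_le (v : Vec d) : gau v ≤ 1 := by
  unfold gau
  rw [← Real.exp_zero]
  exact Real.exp_le_exp.2 (by linarith [sq_nonneg' v])

private theorem Cnd_gau_cont : Continuous (gau : Vec d → ℝ) := by
  unfold gau nsq
  fun_prop

private theorem Cnd_log {c y : ℝ} (hc : 0 < c) (hcy : c ≤ y) :
    |Real.log y| ≤ |Real.log c| + y := by
  have hy : 0 < y := hc.trans_le hcy
  rcases le_total 1 y with h | h
  · rw [abs_of_nonneg (Real.log_nonneg h)]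
    have h1 := Real.log_le_self hy.le
    have h2 := abs_nonneg (Real.log c)
    linarith
  · have h1 : Real.log y ≤ 0 := Real.log_nonpos hy.le h
    have h2 := Real.log_le_log hc hcy
    rw [abs_of_nonpos h1]
    have h3 := neg_abs_le (Real.log c)
    linarith

/-- the integrand of the dissipation -/
private noncomputable def Cnd_G (γ δ : ℝ) (f : ℝ → Vec d → Vec d → ℝ) (t : ℝ) (x v : Vec d) : ℝ :=
  landauQ γ (fun w => f t x w + δ * gau w) v * Real.log (f t x v + δ * gau v)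

private theorem Cnd_bd (h1 : -2 < γ) (h2 : γ ≤ 0) (hf : IsLandauSol γ T f) {δ : ℝ}
    (hδ : δ ∈ Ioc (0 : ℝ) 1) {T₀ T₁ : ℝ} (h0 : 0 < T₀) (hT : T₁ < T) :
    ∃ K, 0 ≤ K ∧ ∀ t ∈ Icc T₀ T₁, ∀ x v, |Cnd_G γ δ f t x v| ≤ K * wt d v := by
  have hf' : IsClassicalSol T (fun t x => landauQ γ (f t x)) f := hf
  obtain ⟨C, hC⟩ := sol_unice hf' h0 hT
  obtain ⟨D, hD0, hD⟩ := landau_rem (d := d) h1 h2 C
  obtain ⟨E, hE0, hE⟩ := hf'.Q_le h0 hT (2 + (d + 1))
  obtain ⟨F, hF0, hF⟩ := hf'.f_le hT 0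
  have hB : 0 ≤ 1 + |Real.log δ| + d + F := by positivity
  refine ⟨(1 + |Real.log δ| + d + F) * (D + E), by positivity, fun t ht x v => ?_⟩
  have ht' : t ∈ Icc 0 T₁ := ⟨h0.le.trans ht.1, ht.2⟩
  have hn := hf'.nonneg t ⟨ht'.1, ht'.2.trans_lt hT⟩ x v
  have hw := w_pos v
  have hb := mul_pos hδ.1 (Cnd_gau_pos v)
  have hb1 : δ * gau v ≤ 1 := by
    have e1 := Cnd_gau_le v
    have e2 := Cnd_gau_pos v
    nlinarith [hδ.1, hδ.2]
  have hfv : f t x v ≤ F := by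
    have := hF t ht' x v
    rw [pow_zero, inv_one, mul_one] at this
    exact (le_abs_self _).trans this
  have hlog : |Real.log (f t x v + δ * gau v)| ≤ (1 + |Real.log δ| + d + F) * (1 + ‖v‖) ^ 2 := by
    have e1 := Cnd_log hb (by linarith : δ * gau v ≤ f t x v + δ * gau v)
    have e2 : |Real.log (δ * gau v)| ≤ |Real.log δ| + nsq v := by
      rw [Real.log_mul hδ.1.ne' (Cnd_gau_pos v).ne']
      refine (abs_add_le _ _).trans ?_
      unfold gau
      rw [Real.log_exp, abs_neg, abs_of_nonneg (sq_nonneg' v)]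
    have e3 := sq_le v
    have e4 : (1 : ℝ) ≤ (1 + ‖v‖) ^ 2 := one_le_pow₀ (one_le_w v)
    have e5 : ‖v‖ ^ 2 ≤ (1 + ‖v‖) ^ 2 :=
      pow_le_pow_left₀ (norm_nonneg v) (by linarith [norm_nonneg v]) 2
    have e6 : (d : ℝ) * ‖v‖ ^ 2 ≤ d * (1 + ‖v‖) ^ 2 :=
      mul_le_mul_of_nonneg_left e5 (Nat.cast_nonneg d)
    have e7 := abs_nonneg (Real.log δ)
    have e8 : |Real.log (f t x v + δ * gau v)| ≤ (|Real.log δ| + d * (1 + ‖v‖) ^ 2) + (F + 1) := by
      linarith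
    refine e8.trans ?_
    nlinarith
  have hQ : |landauQ γ (fun w => f t x w + δ * gau w) v| ≤
      (D + E) * ((1 + ‖v‖) ^ (2 + (d + 1)))⁻¹ := by
    have e1 := hD (f t x) (hC t ht x) δ hδ v
    have e2 := hE t ht x v
    have hp : 0 < (1 + ‖v‖) ^ (2 + (d + 1)) := pow_pos hw _
    have e3 : |landauQ γ (fun w => f t x w + δ * gau w) v - landauQ γ (f t x) v| ≤
        D * ((1 + ‖v‖) ^ (2 + (d + 1)))⁻¹ := by
      rw [← div_eq_mul_inv, le_div_iff₀ hp, mul_comm]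
      have e4 : (1 + ‖v‖) ^ (2 + (d + 1)) = (1 + ‖v‖) ^ (d + 3) := by
        congr 1
        ring
      rw [e4]
      refine e1.trans ?_
      have := mul_le_mul_of_nonneg_right hδ.2 hD0
      linarith
    have e5 : landauQ γ (fun w => f t x w + δ * gau w) v =
        (landauQ γ (fun w => f t x w + δ * gau w) v - landauQ γ (f t x) v) +
          landauQ γ (f t x) v := by ring
    rw [e5, add_mul]
    exact (abs_add_le _ _).trans (add_le_add e3 e2)
  unfold Cnd_G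
  rw [abs_mul, mul_comm]
  calc |Real.log (f t x v + δ * gau v)| * |landauQ γ (fun w => f t x w + δ * gau w) v|
      ≤ ((1 + |Real.log δ| + d + F) * (1 + ‖v‖) ^ 2) *
        ((D + E) * ((1 + ‖v‖) ^ (2 + (d + 1)))⁻¹) :=
        mul_le_mul hlog hQ (abs_nonneg _) (by positivity)
    _ = _ := wt_bound hB (by positivity) v 2

private theorem Cnd_cont (h1 : -2 < γ) (h2 : γ ≤ 0) (hf : IsLandauSol γ T f) {δ : ℝ}
    (hδ : δ ∈ Ioc (0 : ℝ) 1) : ContinuousOn (unc (Cnd_G γ δ f)) (Ioo 0 T ×ˢ univ) := by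
  have hf' : IsClassicalSol T (fun t x => landauQ γ (f t x)) f := hf
  have hq := q_contOn h1 h2 hf' δ
  have hc : ContinuousOn (unc f) (Ioo 0 T ×ˢ univ) :=
    hf'.cont.mono (prod_mono Ioo_subset_Ico_self le_rfl)
  have hg : Continuous fun p : ℝ × Vec d × Vec d => δ * gau p.2.2 :=
    continuous_const.mul (Cnd_gau_cont.comp (by fun_prop))
  have hl : ContinuousOn (fun p : ℝ × Vec d × Vec d => Real.log (unc f p + δ * gau p.2.2))
      (Ioo 0 T ×ˢ univ) := by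
    refine ContinuousOn.log (hc.add hg.continuousOn) fun p hp => ?_
    have e1 := hf'.nonneg p.1 ⟨hp.1.1.le, hp.1.2⟩ p.2.1 p.2.2
    have e2 := mul_pos hδ.1 (Cnd_gau_pos p.2.2)
    exact (by unfold unc; linarith : 0 < unc f p + δ * gau p.2.2).ne'
  exact hq.mul hl

private theorem Cnd_DL (δ : ℝ) (t : ℝ) (x : Vec d) :
    DL γ δ (f t x) = -∫ v, Cnd_G γ δ f t x v := rfl

theorem dl_contOn (h1 : -2 < γ) (h2 : γ ≤ 0) (hf : IsLandauSol γ T f) {δ : ℝ} (hδ : δ ∈ Ioc (0 : ℝ) 1) :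
    ContinuousOn (fun p : ℝ × Vec d => DL γ δ (f p.1 p.2)) (Ioo 0 T ×ˢ univ) := by
  have h : ContinuousOn (fun p : ℝ × Vec d => ∫ v, Cnd_G γ δ f p.1 p.2 v) (Ioo 0 T ×ˢ univ) := by
    refine cont_int (Cnd_cont h1 h2 hf hδ) fun t ht => ?_
    obtain ⟨K, -, hK⟩ := Cnd_bd h1 h2 hf hδ (T₀ := t / 2) (T₁ := (t + T) / 2)
      (by linarith [ht.1]) (by linarith [ht.2])
    refine ⟨Icc (t / 2) ((t + T) / 2), mem_nhdsWithin_of_mem_nhds (Icc_mem_nhds ?_ ?_), K,
      fun s hs x v => hK s hs x v⟩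
    · linarith [ht.1]
    · linarith [ht.2]
  exact h.neg

theorem dl_bd (h1 : -2 < γ) (h2 : γ ≤ 0) (hf : IsLandauSol γ T f) {δ : ℝ} (hδ : δ ∈ Ioc (0 : ℝ) 1)
    {T₀ T₁ : ℝ} (h0 : 0 < T₀) (hT : T₁ < T) :
    ∃ K, ∀ t ∈ Icc T₀ T₁, ∀ x, |DL γ δ (f t x)| ≤ K := by
  obtain ⟨K, -, hK⟩ := Cnd_bd h1 h2 hf hδ h0 hT
  refine ⟨∫ v, K * wt d v, fun t ht x => ?_⟩
  rw [Cnd_DL, abs_neg, ← Real.norm_eq_abs]
  exact norm_integral_le_of_norm_le (integrable_wt.const_mul K)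
    (Eventually.of_forall fun v => hK t ht x v)

theorem dl_int (h1 : -2 < γ) (h2 : γ ≤ 0) (hf : IsLandauSol γ T f) {δ : ℝ} (hδ : δ ∈ Ioc (0 : ℝ) 1)
    {t : ℝ} (ht : t ∈ Ioo 0 T) : Integrable (fun x => DL γ δ (f t x)) (muD d) := by
  obtain ⟨K, hK⟩ := dl_bd h1 h2 hf hδ (T₀ := t) (T₁ := t) ht.1 ht.2
  have hc : Continuous fun x : Vec d => DL γ δ (f t x) :=
    (dl_contOn h1 h2 hf hδ).comp_continuous (f := fun x : Vec d => (t, x)) (by fun_prop)
      fun x => ⟨ht, mem_univ _⟩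
  refine (integrable_const K).mono' hc.aestronglyMeasurable (Eventually.of_forall fun x => ?_)
  exact hK t ⟨le_rfl, le_rfl⟩ x

theorem dl_ii (h1 : -2 < γ) (h2 : γ ≤ 0) (hf : IsLandauSol γ T f) {δ : ℝ} (hδ : δ ∈ Ioc (0 : ℝ) 1)
    {t₁ t₂ : ℝ} (h0 : 0 < t₁) (h12 : t₁ < t₂) (h3 : t₂ < T) :
    IntervalIntegrable (fun t => ∫ x, DL γ δ (f t x) ∂(muD d)) volume t₁ t₂ := by
  obtain ⟨K, hK⟩ := dl_bd h1 h2 hf hδ h0 h3
  have hcon := dl_contOn h1 h2 hf hδ
  refine ContinuousOn.intervalIntegrable_of_Icc h12.le ?_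
  refine continuousOn_of_dominated (bound := fun _ => K) ?_ ?_ (integrable_const K) ?_
  · intro t ht
    have ht' : t ∈ Ioo 0 T := ⟨h0.trans_le ht.1, ht.2.trans_lt h3⟩
    exact (hcon.comp_continuous (f := fun x : Vec d => (t, x)) (by fun_prop)
      fun x => ⟨ht', mem_univ _⟩).aestronglyMeasurable
  · intro t ht
    exact Eventually.of_forall fun x => hK t ht x
  · refine Eventually.of_forall fun x => ?_
    refine hcon.comp (f := fun t : ℝ => (t, x)) (by fun_prop) fun t ht => ?_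
    exact ⟨⟨h0.trans_le ht.1, ht.2.trans_lt h3⟩, mem_univ _⟩

end Pool.Agent.H15.EL
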