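import Pool.Agent.H37.LN.Defs
import Pool.Agent.H15.AV.LH

/-!
# The dissipation and the regularized entropy production (MODULE EL_Rem)

Both statements are parts of the proof of `hth_landau` (H15/AV/LH.lean): copy the private lemmas `rem_*` that are needed.
`dl_nonneg`: `landau_H` for `G = g + δ gau` (which is `UNice`, positive, `|log G|` of polynomial growth, `(∂_i G)²/G` is `RD` by `grad_sq_le`).
`dl_rem`: `∫ landauQ g log G + DL = ∫ (landauQ g - landauQ G) log G`, this is bounded by `δ D (-log δ + c) ∫ wt` (the e1, e2, e3, rem_small part of the proof).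
-/

set_option autoImplicit false

open MeasureTheory Set Filter Topology Pool.Agent.H25.Kin Pool.Agent.H15.AV Pool.Agent.H37.LN

namespace Pool.Agent.H15.EL

variable {d : ℕ} {γ : ℝ}

private theorem rem_gau_pos (v : Vec d) : 0 < gau v := Real.exp_pos _

private theorem rem_gau_le_one (v : Vec d) : gau v ≤ 1 := by
  unfold gau
  exact Real.exp_le_one_iff.2 (neg_nonpos.2 (sq_nonneg' v))

private theorem rem_nice_add {g : Vec d → ℝ} (hg : Nice g) (δ : ℝ) :
    Nice fun v => g v + δ * gau v := by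
  have hm := nice_gau (d := d)
  have e1 : fderiv ℝ (fun v => g v + δ * gau v) = fun v => fderiv ℝ g v + δ • fderiv ℝ gau v := by
    funext v
    exact ((hg.diff v).hasFDerivAt.add ((hm.diff v).hasFDerivAt.const_mul δ)).fderiv
  have e2 : fderiv ℝ (fderiv ℝ (fun v => g v + δ * gau v)) =
      fun v => fderiv ℝ (fderiv ℝ g) v + δ • fderiv ℝ (fderiv ℝ gau) v := by
    rw [e1]
    funext v
    exact ((hg.diff1 v).hasFDerivAt.add ((hm.diff1 v).hasFDerivAt.const_smul δ)).fderiv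
  have r : ∀ {E : Type} [NormedAddCommGroup E] [NormedSpace ℝ E] (h : Vec d → E), RD h →
      RD fun v => δ • h v := by
    intro E _ _ h hh
    refine hh.mono |δ| fun v => ?_
    rw [norm_smul, Real.norm_eq_abs]
  refine ⟨hg.smooth.add (contDiff_const.mul hm.smooth), ?_, ?_, ?_⟩
  · exact hg.rd.add (r _ hm.rd)
  · rw [e1]; exact hg.rd1.add (r _ hm.rd1)
  · rw [e2]; exact hg.rd2.add (r _ hm.rd2)

private theorem rem_fd1 {g : Vec d → ℝ} (hg : Nice g) (δ : ℝ) (v : Vec d) :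
    fderiv ℝ (fun v => g v + δ * gau v) v = fderiv ℝ g v + δ • fderiv ℝ gau v :=
  ((hg.diff v).hasFDerivAt.add (((nice_gau (d := d)).diff v).hasFDerivAt.const_mul δ)).fderiv

private theorem rem_fd2 {g : Vec d → ℝ} (hg : Nice g) (δ : ℝ) (v : Vec d) :
    fderiv ℝ (fderiv ℝ (fun v => g v + δ * gau v)) v =
      fderiv ℝ (fderiv ℝ g) v + δ • fderiv ℝ (fderiv ℝ gau) v := by
  have e1 : fderiv ℝ (fun v => g v + δ * gau v) = fun v => fderiv ℝ g v + δ • fderiv ℝ gau v :=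
    funext fun v => rem_fd1 hg δ v
  rw [e1]
  exact ((hg.diff1 v).hasFDerivAt.add
    (((nice_gau (d := d)).diff1 v).hasFDerivAt.const_smul δ)).fderiv

private theorem rem_unice {C : ℕ → ℝ} : ∃ C' : ℕ → ℝ, ∀ g : Vec d → ℝ, UNice C g →
    ∀ δ ∈ Ioc (0 : ℝ) 1, UNice C' fun v => g v + δ * gau v := by
  have hm := nice_gau (d := d)
  have h0 : ∀ N, ∃ a, ∀ v : Vec d, (1 + ‖v‖) ^ N * ‖gau v‖ ≤ a := hm.rd
  have h1 : ∀ N, ∃ a, ∀ v : Vec d, (1 + ‖v‖) ^ N * ‖fderiv ℝ gau v‖ ≤ a := hm.rd1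
  have h2 : ∀ N, ∃ a, ∀ v : Vec d, (1 + ‖v‖) ^ N * ‖fderiv ℝ (fderiv ℝ gau) v‖ ≤ a := hm.rd2
  choose a0 ha0 using h0
  choose a1 ha1 using h1
  choose a2 ha2 using h2
  refine ⟨fun N => C N + (a0 N + a1 N + a2 N), fun g hg δ hδ => ?_⟩
  have hδ0 : 0 < δ := hδ.1
  have hδ1 : δ ≤ 1 := hδ.2
  refine ⟨rem_nice_add hg.nice δ, fun v => add_nonneg (hg.nonneg v)
    (mul_nonneg hδ0.le (rem_gau_pos v).le), fun N v => ?_⟩
  have hw : 0 ≤ (1 + ‖v‖) ^ N := pow_nonneg (w_pos v).le _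
  rw [rem_fd1 hg.nice, rem_fd2 hg.nice]
  have b0 : δ * gau v ≤ ‖gau v‖ := by
    rw [Real.norm_eq_abs, abs_of_pos (rem_gau_pos v)]
    have := mul_le_mul_of_nonneg_right hδ1 (rem_gau_pos v).le
    rwa [one_mul] at this
  have b1 : ‖fderiv ℝ g v + δ • fderiv ℝ gau v‖ ≤ ‖fderiv ℝ g v‖ + ‖fderiv ℝ gau v‖ := by
    refine (norm_add_le _ _).trans (add_le_add le_rfl ?_)
    rw [norm_smul, Real.norm_eq_abs, abs_of_pos hδ0]
    have := mul_le_mul_of_nonneg_right hδ1 (norm_nonneg (fderiv ℝ (gau (d := d)) v))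
    rwa [one_mul] at this
  have b2 : ‖fderiv ℝ (fderiv ℝ g) v + δ • fderiv ℝ (fderiv ℝ gau) v‖ ≤
      ‖fderiv ℝ (fderiv ℝ g) v‖ + ‖fderiv ℝ (fderiv ℝ gau) v‖ := by
    refine (norm_add_le (fderiv ℝ (fderiv ℝ g) v)
      (δ • fderiv ℝ (fderiv ℝ gau) v)).trans (add_le_add le_rfl ?_)
    have hs : ‖δ • fderiv ℝ (fderiv ℝ (gau (d := d))) v‖ ≤
        ‖δ‖ * ‖fderiv ℝ (fderiv ℝ (gau (d := d))) v‖ :=
      ContinuousLinearMap.opNorm_smul_le δ (fderiv ℝ (fderiv ℝ (gau (d := d))) v)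
    refine hs.trans ?_
    rw [Real.norm_eq_abs, abs_of_pos hδ0]
    have hn : 0 ≤ ‖fderiv ℝ (fderiv ℝ (gau (d := d))) v‖ :=
      (fderiv ℝ (fderiv ℝ (gau (d := d))) v).opNorm_nonneg
    have := mul_le_mul_of_nonneg_right hδ1 hn
    rwa [one_mul] at this
  have hgl := hg.le N v
  have := ha0 N v
  have := ha1 N v
  have := ha2 N v
  calc (1 + ‖v‖) ^ N * (g v + δ * gau v + ‖fderiv ℝ g v + δ • fderiv ℝ gau v‖ +
        ‖fderiv ℝ (fderiv ℝ g) v + δ • fderiv ℝ (fderiv ℝ gau) v‖)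
      ≤ (1 + ‖v‖) ^ N * (g v + ‖gau v‖ + (‖fderiv ℝ g v‖ + ‖fderiv ℝ gau v‖) +
        (‖fderiv ℝ (fderiv ℝ g) v‖ + ‖fderiv ℝ (fderiv ℝ gau) v‖)) := by
        refine mul_le_mul_of_nonneg_left ?_ hw
        linarith
    _ = (1 + ‖v‖) ^ N * (g v + ‖fderiv ℝ g v‖ + ‖fderiv ℝ (fderiv ℝ g) v‖) +
        ((1 + ‖v‖) ^ N * ‖gau v‖ + (1 + ‖v‖) ^ N * ‖fderiv ℝ gau v‖ +
          (1 + ‖v‖) ^ N * ‖fderiv ℝ (fderiv ℝ gau) v‖) := by ring
    _ ≤ C N + (a0 N + a1 N + a2 N) := by linarith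

private theorem rem_Q_meas (g : Vec d → ℝ) : Measurable (landauQ γ g) := by
  unfold landauQ
  exact Finset.measurable_fun_sum _ fun i _ => measurable_fderiv_apply_const ℝ _ _

private theorem rem_Q_RD (h1 : -2 < γ) (h2 : γ ≤ 0) {g : Vec d → ℝ} (hg : Nice g) :
    RD (landauQ γ g) := by
  unfold landauQ
  refine RD.sum _ fun i _ => ?_
  exact (landauFlux_RD1 h1 h2 hg i).mono 1 fun v => by rw [one_mul]; exact pd_le i _ v

private theorem rem_small {D L c ε : ℝ} (hε : 0 < ε) :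
    ∃ δ₀ > 0, δ₀ ≤ 1 ∧ ∀ δ ∈ Ioc (0 : ℝ) δ₀, δ * D * (-Real.log δ + c) * L ≤ ε := by
  have h1 : Tendsto (fun δ : ℝ => δ * D * (-Real.log δ + c) * L) (𝓝[>] 0) (𝓝 0) := by
    have h2 : Tendsto (fun δ : ℝ => Real.log δ * δ) (𝓝[>] 0) (𝓝 0) := by
      have := tendsto_log_mul_rpow_nhdsGT_zero (r := 1) one_pos
      simpa using this
    have h3 : Tendsto (fun δ : ℝ => δ) (𝓝[>] 0) (𝓝 0) := tendsto_nhdsWithin_of_tendsto_nhds tendsto_id
    have h4 : Tendsto (fun δ : ℝ => (-(Real.log δ * δ) + c * δ) * (D * L)) (𝓝[>] 0)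
        (𝓝 ((-0 + c * 0) * (D * L))) := ((h2.neg.add (h3.const_mul c)).mul_const _)
    have e : (-0 + c * 0) * (D * L) = 0 := by ring
    rw [e] at h4
    refine h4.congr fun δ => ?_
    ring
  have h5 : ∀ᶠ δ : ℝ in 𝓝[>] 0, δ * D * (-Real.log δ + c) * L < ε := (tendsto_order.1 h1).2 ε hε
  rw [eventually_nhdsWithin_iff, Metric.eventually_nhds_iff] at h5
  obtain ⟨r, hr, h6⟩ := h5
  refine ⟨min (r / 2) 1, lt_min (by linarith) one_pos, min_le_right _ _, fun δ hδ => ?_⟩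
  refine (h6 (y := δ) ?_ hδ.1).le
  rw [Real.dist_eq, sub_zero, abs_of_pos hδ.1]
  have := hδ.2.trans (min_le_left _ _)
  linarith

private theorem rem_log_le {C : ℕ → ℝ} {g : Vec d → ℝ} (hg : UNice C g) {δ : ℝ} (hδ : δ ∈ Ioc (0 : ℝ) 1)
    (v : Vec d) : |Real.log (g v + δ * gau v)| ≤
      -Real.log δ + nsq v + Real.log (max (C 0) 0 + 1) := by
  have hδ0 : 0 < δ := hδ.1
  have hlog0 : 0 ≤ Real.log (max (C 0) 0 + 1) := Real.log_nonneg (by
    have := le_max_right (C 0) 0; linarith)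
  have hGpos : ∀ v, 0 < g v + δ * gau v := fun v =>
    add_pos_of_nonneg_of_pos (hg.nonneg v) (mul_pos hδ0 (rem_gau_pos v))
  have hlδ : Real.log δ ≤ 0 := Real.log_nonpos hδ0.le hδ.2
  have hn := sq_nonneg' v
  rw [abs_le]
  constructor
  · have h3 : Real.log (δ * gau v) ≤ Real.log (g v + δ * gau v) :=
      Real.log_le_log (mul_pos hδ0 (rem_gau_pos v)) (by linarith [hg.nonneg v])
    have h4 : Real.log (δ * gau v) = Real.log δ - nsq v := by
      rw [Real.log_mul hδ0.ne' (rem_gau_pos v).ne']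
      unfold gau
      rw [Real.log_exp]
      ring
    rw [h4] at h3
    linarith
  · have h3 : g v + δ * gau v ≤ max (C 0) 0 + 1 := by
      have h4 : g v ≤ C 0 := by
        have := hg.le 0 v
        rw [pow_zero, one_mul] at this
        have := norm_nonneg (fderiv ℝ g v)
        have := norm_nonneg (fderiv ℝ (fderiv ℝ g) v)
        linarith
      have h5 : δ * gau v ≤ 1 := by
        have := mul_le_mul hδ.2 (rem_gau_le_one v) (rem_gau_pos v).le zero_le_one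
        linarith
      have := le_max_left (C 0) 0
      linarith
    have h6 := Real.log_le_log (hGpos v) h3
    linarith

private theorem rem_log_PG {C : ℕ → ℝ} {g : Vec d → ℝ} (hg : UNice C g) {δ : ℝ} (hδ : δ ∈ Ioc (0 : ℝ) 1) :
    PG fun v => Real.log (g v + δ * gau v) := by
  have hp : PG fun v : Vec d => -Real.log δ + nsq v + Real.log (max (C 0) 0 + 1) :=
    ((PG.const (-Real.log δ)).add PG.nsq).add (PG.const _)
  obtain ⟨N, K, hK⟩ := hp
  refine ⟨N, K, fun v => ?_⟩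
  rw [Real.norm_eq_abs]
  refine (rem_log_le hg hδ v).trans ((le_abs_self _).trans ?_)
  have := hK v
  rwa [Real.norm_eq_abs] at this

theorem dl_nonneg (h1 : -2 < γ) (h2 : γ ≤ 0) {C : ℕ → ℝ} {g : Vec d → ℝ} (hg : UNice C g) {δ : ℝ}
    (hδ : δ ∈ Ioc (0 : ℝ) 1) : 0 ≤ DL γ δ g := by
  obtain ⟨C1, hC1⟩ := rem_unice (d := d) (C := C)
  obtain ⟨C2, hC2⟩ := grad_sq_le (d := d) C1
  have hδ0 : 0 < δ := hδ.1
  have hGU := hC1 g hg δ hδ
  have hG := hGU.nice
  have hGpos : ∀ v, 0 < g v + δ * gau v := fun v =>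
    add_pos_of_nonneg_of_pos (hg.nonneg v) (mul_pos hδ0 (rem_gau_pos v))
  have hr : ∀ i, RD fun v => (pd i (fun v => g v + δ * gau v) v) ^ 2 / (g v + δ * gau v) := by
    intro i N
    refine ⟨C2 N, fun v => ?_⟩
    have h3 := hC2 _ hGU i N v
    have hp := hGpos v
    rw [Real.norm_eq_abs, abs_of_nonneg (by positivity), ← mul_div_assoc, div_le_iff₀ hp]
    exact h3
  have hH := landau_H h1 h2 hG hGpos (rem_log_PG hg hδ) hr
  unfold DL
  linarith

theorem dl_rem (h1 : -2 < γ) (h2 : γ ≤ 0) (C : ℕ → ℝ) {ε : ℝ} (hε : 0 < ε) :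
    ∃ δ₀ > 0, δ₀ ≤ 1 ∧ ∀ δ ∈ Ioc (0 : ℝ) δ₀, ∀ g : Vec d → ℝ, UNice C g →
      |(∫ v, landauQ γ g v * Real.log (g v + δ * gau v)) + DL γ δ g| ≤ ε := by
  obtain ⟨D, hD0, hD⟩ := landau_rem (d := d) h1 h2 C
  obtain ⟨C1, hC1⟩ := rem_unice (d := d) (C := C)
  have hI0 : 0 ≤ ∫ z, wt d z := integral_nonneg fun z => wt_nonneg z
  have hlog0 : 0 ≤ Real.log (max (C 0) 0 + 1) := Real.log_nonneg (by
    have := le_max_right (C 0) 0; linarith)
  obtain ⟨δ₀, hδ₀, hδ₀1, hsm⟩ := rem_small (D := D) (L := ∫ z, wt d z)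
    (c := (d : ℝ) + Real.log (max (C 0) 0 + 1)) hε
  refine ⟨δ₀, hδ₀, hδ₀1, fun δ hδ g hg => ?_⟩
  have hδI : δ ∈ Ioc (0 : ℝ) 1 := ⟨hδ.1, hδ.2.trans hδ₀1⟩
  have hδ0 : 0 < δ := hδ.1
  have hGU := hC1 g hg δ hδI
  have hG := hGU.nice
  have hGpos : ∀ v, 0 < g v + δ * gau v := fun v =>
    add_pos_of_nonneg_of_pos (hg.nonneg v) (mul_pos hδ0 (rem_gau_pos v))
  have hlogle : ∀ v, |Real.log (g v + δ * gau v)| ≤
      -Real.log δ + nsq v + Real.log (max (C 0) 0 + 1) := rem_log_le hg hδI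
  have hlPG : PG fun v => Real.log (g v + δ * gau v) := rem_log_PG hg hδI
  have hlcont : Continuous fun v => Real.log (g v + δ * gau v) :=
    hG.cont.log fun v => (hGpos v).ne'
  -- the remainder
  have iQG : Integrable fun v => landauQ γ (fun v => g v + δ * gau v) v *
      Real.log (g v + δ * gau v) :=
    ((rem_Q_RD h1 h2 hG).mul_PG hlPG).integrable
      ((rem_Q_meas _).mul hlcont.measurable).aestronglyMeasurable
  have iR : Integrable fun v => (landauQ γ (fun v => g v + δ * gau v) v - landauQ γ g v) *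
      Real.log (g v + δ * gau v) :=
    (((rem_Q_RD h1 h2 hG).sub (rem_Q_RD h1 h2 hg.nice)).mul_PG hlPG).integrable
      (((rem_Q_meas _).sub (rem_Q_meas _)).mul hlcont.measurable).aestronglyMeasurable
  have e1 : ∫ v, landauQ γ g v * Real.log (g v + δ * gau v) =
      (∫ v, landauQ γ (fun v => g v + δ * gau v) v * Real.log (g v + δ * gau v)) -
        ∫ v, (landauQ γ (fun v => g v + δ * gau v) v - landauQ γ g v) *
          Real.log (g v + δ * gau v) := by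
    rw [← integral_sub iQG iR]
    refine integral_congr_ae (Eventually.of_forall fun v => ?_)
    simp only
    ring
  have e2 : |∫ v, (landauQ γ (fun v => g v + δ * gau v) v - landauQ γ g v) *
      Real.log (g v + δ * gau v)| ≤
        ∫ v, δ * D * (-Real.log δ + ((d : ℝ) + Real.log (max (C 0) 0 + 1))) * wt d v := by
    rw [← Real.norm_eq_abs]
    refine norm_integral_le_of_norm_le (integrable_wt.const_mul _)
      (Eventually.of_forall fun v => ?_)
    rw [norm_mul, Real.norm_eq_abs, Real.norm_eq_abs]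
    have hw := w_pos v
    have h3 := hD g hg δ hδI v
    have h4 := hlogle v
    have hlδ : 0 ≤ -Real.log δ := neg_nonneg.2 (Real.log_nonpos hδ0.le hδI.2)
    have h5 : -Real.log δ + nsq v + Real.log (max (C 0) 0 + 1) ≤
        (-Real.log δ + ((d : ℝ) + Real.log (max (C 0) 0 + 1))) * (1 + ‖v‖) ^ 2 := by
      have h6 := sq_le v
      have h7 : (1 : ℝ) ≤ (1 + ‖v‖) ^ 2 := one_le_pow₀ (one_le_w v)
      have h8 : ‖v‖ ^ 2 ≤ (1 + ‖v‖) ^ 2 :=
        pow_le_pow_left₀ (norm_nonneg v) (by linarith [norm_nonneg v]) 2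
      have hd : (0 : ℝ) ≤ d := Nat.cast_nonneg d
      have h9 : nsq v ≤ d * (1 + ‖v‖) ^ 2 := h6.trans (mul_le_mul_of_nonneg_left h8 hd)
      have h10 := mul_le_mul_of_nonneg_left h7 hlδ
      have h11 := mul_le_mul_of_nonneg_left h7 hlog0
      nlinarith
    have hwt : wt d v * (1 + ‖v‖) ^ (d + 3) = (1 + ‖v‖) ^ 2 := by
      unfold wt
      have hne : (1 + ‖v‖) ^ (d + 1) ≠ 0 := (pow_pos hw _).ne'
      have e7 : (1 + ‖v‖) ^ (d + 3) = (1 + ‖v‖) ^ (d + 1) * (1 + ‖v‖) ^ 2 := by ring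
      rw [e7, ← mul_assoc, inv_mul_cancel₀ hne, one_mul]
    have hwp : 0 < (1 + ‖v‖) ^ (d + 3) := pow_pos hw _
    have h12 : |landauQ γ (fun v => g v + δ * gau v) v - landauQ γ g v| ≤
        δ * D / (1 + ‖v‖) ^ (d + 3) := by
      rw [le_div_iff₀ hwp, mul_comm]
      exact h3
    calc |landauQ γ (fun v => g v + δ * gau v) v - landauQ γ g v| *
          |Real.log (g v + δ * gau v)|
        ≤ δ * D / (1 + ‖v‖) ^ (d + 3) *
          ((-Real.log δ + ((d : ℝ) + Real.log (max (C 0) 0 + 1))) * (1 + ‖v‖) ^ 2) :=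
          mul_le_mul h12 (h4.trans h5) (abs_nonneg _) (by positivity)
      _ = δ * D * (-Real.log δ + ((d : ℝ) + Real.log (max (C 0) 0 + 1))) *
          ((1 + ‖v‖) ^ 2 / (1 + ‖v‖) ^ (d + 3)) := by ring
      _ = δ * D * (-Real.log δ + ((d : ℝ) + Real.log (max (C 0) 0 + 1))) * wt d v := by
          rw [← hwt, mul_div_assoc, div_self hwp.ne', mul_one]
  have e3 : ∫ v, δ * D * (-Real.log δ + ((d : ℝ) + Real.log (max (C 0) 0 + 1))) * wt d v =
      δ * D * (-Real.log δ + ((d : ℝ) + Real.log (max (C 0) 0 + 1))) * ∫ v, wt d v :=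
    integral_const_mul _ _
  rw [e3] at e2
  have e4 := hsm δ hδ
  unfold DL
  rw [e1]
  have e5 : ((∫ v, landauQ γ (fun v => g v + δ * gau v) v * Real.log (g v + δ * gau v)) -
        ∫ v, (landauQ γ (fun v => g v + δ * gau v) v - landauQ γ g v) *
          Real.log (g v + δ * gau v)) +
      -∫ v, landauQ γ (fun v => g v + δ * gau v) v * Real.log (g v + δ * gau v) =
      -∫ v, (landauQ γ (fun v => g v + δ * gau v) v - landauQ γ g v) *
          Real.log (g v + δ * gau v) := by ring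
  rw [e5, abs_neg]
  exact e2.trans e4

end Pool.Agent.H15.EL
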