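import Pool.Agent.H37.LN.Defs
import Pool.Agent.H15.EL.Rem
import Pool.Agent.H15.EL.Cnd
import Pool.Agent.H15.AV.Ent

/-!
# The entropy identity with dissipation (MODULE EL_EntS)

Copy of `ent_step`, `ent_lim` (H15/AV/Ent.lean) with the dissipation kept: for `h = β(f + δ gau) - β(δ gau)`, `β a = a log a`: `∫ h(t₂) - ∫ h(t₁) = ∫_(t₁..t₂) ∫_x ∫_v (1 + log G) Q(f) = ∫_(t₁..t₂) ∫_x (-DL + remainder)`, `|remainder| ≤ ε` (`dl_rem`).
-/

set_option autoImplicit false

open MeasureTheory Set Filter Topology Pool.Agent.H25.Kin Pool.Agent.H15.AV Pool.Agent.H37.LN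

namespace Pool.Agent.H15.EL

variable {d : ℕ} {γ T : ℝ} {f : ℝ → Vec d → Vec d → ℝ}

/-! ### the function `a log a` -/

private noncomputable def ebt (a : ℝ) : ℝ := a * Real.log a

private theorem ebt_cont : Continuous ebt := Real.continuous_mul_log

private theorem ebt_zero : ebt 0 = 0 := by simp [ebt]

private theorem ent_log {c y : ℝ} (hc : 0 < c) (hcy : c ≤ y) :
    |Real.log y| ≤ |Real.log c| + y := by
  have hy : 0 < y := hc.trans_le hcy
  rcases le_total 1 y with h | h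
  · rw [abs_of_nonneg (Real.log_nonneg h)]
    have h1 := Real.log_le_self hy.le
    have h2 := abs_nonneg (Real.log c)
    linarith
  · have h1 : Real.log y ≤ 0 := Real.log_nonpos hy.le h
    have h2 := Real.log_le_log hc hcy
    rw [abs_of_nonpos h1]
    have h3 := neg_abs_le (Real.log c)
    linarith

private theorem ent_abs {a : ℝ} (ha : 0 ≤ a) : |ebt a| ≤ a ^ 2 + 2 * √a := by
  rcases ha.eq_or_lt with h0 | h0
  · rw [← h0, ebt_zero]
    simp
  · unfold ebt
    rw [abs_mul, abs_of_pos h0]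
    rcases le_total 1 a with h | h
    · rw [abs_of_nonneg (Real.log_nonneg h)]
      have h1 := mul_le_mul_of_nonneg_left (Real.log_le_self ha) ha
      have h2 := Real.sqrt_nonneg a
      nlinarith
    · rw [abs_of_nonpos (Real.log_nonpos ha h)]
      have hr : 0 < √a := Real.sqrt_pos.2 h0
      have h1 : Real.log (√a)⁻¹ ≤ (√a)⁻¹ - 1 := Real.log_le_sub_one_of_pos (inv_pos.2 hr)
      rw [Real.log_inv, Real.log_sqrt ha] at h1
      have h2 : -Real.log a ≤ 2 * (√a)⁻¹ := by linarith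
      have h3 : a * (√a)⁻¹ = √a := by
        nth_rw 1 [← Real.mul_self_sqrt ha]
        rw [mul_assoc, mul_inv_cancel₀ hr.ne', mul_one]
      calc a * -Real.log a ≤ a * (2 * (√a)⁻¹) := mul_le_mul_of_nonneg_left h2 ha
        _ = 2 * (a * (√a)⁻¹) := by ring
        _ = 2 * √a := by rw [h3]
        _ ≤ a ^ 2 + 2 * √a := by nlinarith [sq_nonneg a]

private theorem ent_diff {a b : ℝ} (ha : 0 ≤ a) (hb : 0 < b) (hb1 : b ≤ 1) :
    |ebt (a + b) - ebt b| ≤ 2 * a ^ 2 + 2 * a + 2 * √a := by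
  rcases ha.eq_or_lt with h0 | h0
  · rw [← h0, zero_add, sub_self, abs_zero]
    positivity
  · have hab : 0 < a + b := by linarith
    have e : ebt (a + b) - ebt b = a * Real.log (a + b) + b * (Real.log (a + b) - Real.log b) := by
      unfold ebt; ring
    have h1 : 0 ≤ Real.log (a + b) - Real.log b :=
      sub_nonneg.2 (Real.log_le_log hb (by linarith))
    have h2 : Real.log (a + b) - Real.log b ≤ a / b := by
      rw [← Real.log_div hab.ne' hb.ne']
      refine (Real.log_le_sub_one_of_pos (div_pos hab hb)).trans (le_of_eq ?_)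
      field_simp
      ring
    have h3 : b * (Real.log (a + b) - Real.log b) ≤ a := by
      calc b * (Real.log (a + b) - Real.log b) ≤ b * (a / b) :=
            mul_le_mul_of_nonneg_left h2 hb.le
        _ = a := by field_simp
    have h4 := ent_log h0 (by linarith : a ≤ a + b)
    have h5 := ent_abs ha
    have h6 : |a * Real.log (a + b)| ≤ |ebt a| + a * (a + b) := by
      unfold ebt
      rw [abs_mul, abs_mul, abs_of_pos h0, ← mul_add]
      exact mul_le_mul_of_nonneg_left h4 ha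
    rw [e]
    refine (abs_add_le _ _).trans ?_
    rw [abs_of_nonneg (mul_nonneg hb.le h1)]
    nlinarith

/-! ### the regularized entropy -/

private theorem gau_pos (v : Vec d) : 0 < gau v := Real.exp_pos _

private theorem gau_le (v : Vec d) : gau v ≤ 1 := by
  unfold gau
  rw [← Real.exp_zero]
  exact Real.exp_le_exp.2 (by linarith [sq_nonneg' v])

private theorem gau_smooth : ContDiff ℝ 1 (gau : Vec d → ℝ) := by
  unfold gau nsq
  fun_prop

private theorem ent_wt_le (v : Vec d) : wt d v ≤ 1 := by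
  unfold wt
  exact inv_le_one_of_one_le₀ (one_le_pow₀ (one_le_w v))

private noncomputable def eh (δ : ℝ) (f : ℝ → Vec d → Vec d → ℝ) (t : ℝ) (x v : Vec d) : ℝ :=
  ebt (f t x v + δ * gau v) - ebt (δ * gau v)

private noncomputable def eS (δ : ℝ) (Q' f : ℝ → Vec d → Vec d → ℝ) (t : ℝ) (x v : Vec d) : ℝ :=
  (1 + Real.log (f t x v + δ * gau v)) * Q' t x v

private theorem ent_bd {Q' : ℝ → Vec d → Vec d → ℝ} (hf : IsClassicalSol T Q' f) {T₁ : ℝ}
    (h1 : T₁ < T) : ∃ K, 0 ≤ K ∧ ∀ t ∈ Icc 0 T₁, ∀ x v, f t x v ≤ K * wt d v ∧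
      f t x v ^ 2 ≤ K * wt d v ∧ √(f t x v) ≤ K * wt d v := by
  obtain ⟨C, hC0, hC⟩ := hf.f_le h1 (2 * (d + 1))
  refine ⟨C + C ^ 2 + √C, by positivity, fun t ht x v => ?_⟩
  have h2 := hC t ht x v
  have h0 := hf.nonneg t ⟨ht.1, ht.2.trans_lt h1⟩ x v
  rw [abs_of_nonneg h0] at h2
  have hw0 := wt_nonneg (d := d) v
  have hw1 := ent_wt_le v
  have e : ((1 + ‖v‖) ^ (2 * (d + 1)))⁻¹ = wt d v ^ 2 := by
    unfold wt
    rw [mul_comm 2, pow_mul, inv_pow]
  rw [e] at h2
  have hs := Real.sqrt_nonneg C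
  have hw2 : wt d v ^ 2 ≤ wt d v := by nlinarith
  have h3 : f t x v ≤ C * wt d v := h2.trans (mul_le_mul_of_nonneg_left hw2 hC0)
  have h4 : f t x v ^ 2 ≤ C ^ 2 * wt d v := by
    have h5 : f t x v ^ 2 ≤ (C * wt d v) ^ 2 := pow_le_pow_left₀ h0 h3 2
    rw [mul_pow] at h5
    exact h5.trans (mul_le_mul_of_nonneg_left hw2 (by positivity))
  have h6 : √(f t x v) ≤ √C * wt d v := by
    refine (Real.sqrt_le_sqrt h2).trans (le_of_eq ?_)
    rw [Real.sqrt_mul hC0, Real.sqrt_sq hw0]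
  refine ⟨?_, ?_, ?_⟩ <;> nlinarith [mul_nonneg hC0 hw0, mul_nonneg (sq_nonneg C) hw0,
    mul_nonneg hs hw0]

private theorem ent_tsol {Q' : ℝ → Vec d → Vec d → ℝ} (hf : IsClassicalSol T Q' f) {δ : ℝ}
    (h0 : 0 < δ) (h1 : δ ≤ 1) : TSol T (eS δ Q' f) (eh δ f) where
  per := by
    intro t ht x v i
    unfold eh
    rw [hf.periodic t ht x v i]
  cont := by
    have hg : Continuous fun p : ℝ × Vec d × Vec d => δ * gau p.2.2 :=
      continuous_const.mul (gau_smooth.continuous.comp (by fun_prop))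
    have h2 : unc (eh δ f) = fun p => ebt (unc f p + δ * gau p.2.2) - ebt (δ * gau p.2.2) := rfl
    rw [h2]
    exact (ebt_cont.comp_continuousOn (hf.cont.add hg.continuousOn)).sub
      (ebt_cont.comp hg).continuousOn
  smooth := by
    have hg : ContDiff ℝ 1 fun p : ℝ × Vec d × Vec d => δ * gau p.2.2 :=
      contDiff_const.mul (gau_smooth.comp (by fun_prop))
    have h2 : unc (eh δ f) = fun p => (unc f p + δ * gau p.2.2) *
        Real.log (unc f p + δ * gau p.2.2) - (δ * gau p.2.2) * Real.log (δ * gau p.2.2) := rfl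
    rw [h2]
    have h3 : ContDiffOn ℝ 1 (fun p => unc f p + δ * gau p.2.2) (Ioo 0 T ×ˢ univ) :=
      (hf.smooth.of_le (by norm_num)).add hg.contDiffOn
    refine (h3.mul (h3.log fun p hp => ?_)).sub (hg.contDiffOn.mul (hg.contDiffOn.log fun p _ => ?_))
    · have := hf.nonneg p.1 ⟨hp.1.1.le, hp.1.2⟩ p.2.1 p.2.2
      have h5 := mul_pos h0 (gau_pos p.2.2)
      exact (by unfold unc; linarith : 0 < unc f p + δ * gau p.2.2).ne'
    · exact (mul_pos h0 (gau_pos p.2.2)).ne'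
  dec := by
    intro T₁ hT₁
    obtain ⟨K, hK0, hK⟩ := ent_bd hf hT₁
    refine ⟨6 * K, fun t ht x v => ?_⟩
    obtain ⟨a1, a2, a3⟩ := hK t ht x v
    have h2 := ent_diff (hf.nonneg t ⟨ht.1, ht.2.trans_lt hT₁⟩ x v) (mul_pos h0 (gau_pos v))
      (by have := gau_le v; have := gau_pos v; nlinarith)
    unfold eh
    linarith
  decS := by
    intro T₀ hT₀ T₁ hT₁
    obtain ⟨D, hD0, hD⟩ := hf.Q_le hT₀ hT₁ (2 + (d + 1))
    obtain ⟨K, hK0, hK⟩ := ent_bd hf hT₁
    refine ⟨(2 + |Real.log δ| + d + K) * D, fun t ht x v => ?_⟩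
    have ht' : t ∈ Icc 0 T₁ := ⟨hT₀.le.trans ht.1, ht.2⟩
    obtain ⟨a1, -, -⟩ := hK t ht' x v
    have hn := hf.nonneg t ⟨ht'.1, ht'.2.trans_lt hT₁⟩ x v
    have hb := mul_pos h0 (gau_pos v)
    have h2 := ent_log hb (by linarith : δ * gau v ≤ f t x v + δ * gau v)
    have h3 : |Real.log (δ * gau v)| ≤ |Real.log δ| + nsq v := by
      rw [Real.log_mul h0.ne' (gau_pos v).ne']
      refine (abs_add_le _ _).trans ?_
      unfold gau
      rw [Real.log_exp, abs_neg, abs_of_nonneg (sq_nonneg' v)]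
    have h4 := sq_le v
    have hw1 := ent_wt_le v
    have hw0 := wt_nonneg (d := d) v
    have hb1 : δ * gau v ≤ 1 := by have := gau_le v; have := gau_pos v; nlinarith
    have hv := norm_nonneg v
    have h5 : f t x v ≤ K := a1.trans (by nlinarith)
    have h6 : |1 + Real.log (f t x v + δ * gau v)| ≤
        (2 + |Real.log δ| + d + K) * (1 + ‖v‖) ^ 2 := by
      have h7 : |1 + Real.log (f t x v + δ * gau v)| ≤ 1 + |Real.log (f t x v + δ * gau v)| := by
        refine (abs_add_le _ _).trans ?_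
        rw [abs_one]
      have h8 : |1 + Real.log (f t x v + δ * gau v)| ≤
          1 + (|Real.log δ| + d * ‖v‖ ^ 2) + (K + 1) := by linarith
      refine h8.trans ?_
      have h9 : (1 : ℝ) ≤ (1 + ‖v‖) ^ 2 := one_le_pow₀ (one_le_w v)
      have h10 : ‖v‖ ^ 2 ≤ (1 + ‖v‖) ^ 2 := pow_le_pow_left₀ hv (by linarith) 2
      have h11 := abs_nonneg (Real.log δ)
      have h12 : (d : ℝ) * ‖v‖ ^ 2 ≤ d * (1 + ‖v‖) ^ 2 :=
        mul_le_mul_of_nonneg_left h10 (Nat.cast_nonneg d)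
      nlinarith
    unfold eS
    rw [abs_mul]
    calc |1 + Real.log (f t x v + δ * gau v)| * |Q' t x v| ≤
        ((2 + |Real.log δ| + d + K) * (1 + ‖v‖) ^ 2) * (D * ((1 + ‖v‖) ^ (2 + (d + 1)))⁻¹) :=
          mul_le_mul h6 (hD t ht x v) (abs_nonneg _) (by positivity)
      _ = _ := wt_bound (by positivity) hD0 v 2
  solves := by
    intro t ht x v
    have hn := hf.nonneg t ⟨ht.1.le, ht.2⟩ x v
    have hb := mul_pos h0 (gau_pos v)
    have hF : HasFDerivAt (unc f) (fderiv ℝ (unc f) (t, x, v)) (t, x, v) :=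
      ((hf.cda ht x v).differentiableAt (by norm_num)).hasFDerivAt
    have hG : HasFDerivAt (fun p : ℝ × Vec d × Vec d => δ * gau p.2.2)
        (δ • (fderiv ℝ gau v).comp ((ContinuousLinearMap.snd ℝ (Vec d) (Vec d)).comp
          (ContinuousLinearMap.snd ℝ ℝ (Vec d × Vec d)))) (t, x, v) := by
      have h2 : HasFDerivAt (gau : Vec d → ℝ) (fderiv ℝ gau v) v :=
        (gau_smooth.differentiable one_ne_zero v).hasFDerivAt
      have h3 : HasFDerivAt (fun p : ℝ × Vec d × Vec d => p.2.2)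
          ((ContinuousLinearMap.snd ℝ (Vec d) (Vec d)).comp
          (ContinuousLinearMap.snd ℝ ℝ (Vec d × Vec d))) (t, x, v) :=
        ((ContinuousLinearMap.snd ℝ (Vec d) (Vec d)).comp
          (ContinuousLinearMap.snd ℝ ℝ (Vec d × Vec d))).hasFDerivAt
      have h4 : HasFDerivAt (fun p : ℝ × Vec d × Vec d => gau p.2.2)
          ((fderiv ℝ gau v).comp ((ContinuousLinearMap.snd ℝ (Vec d) (Vec d)).comp
          (ContinuousLinearMap.snd ℝ ℝ (Vec d × Vec d)))) (t, x, v) :=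
        HasFDerivAt.comp (g := (gau : Vec d → ℝ)) (t, x, v) h2 h3
      exact h4.const_mul δ
    have hA := hF.add hG
    have d1 : HasDerivAt ebt (Real.log (f t x v + δ * gau v) + 1) (f t x v + δ * gau v) :=
      Real.hasDerivAt_mul_log (by linarith [hb] : 0 < f t x v + δ * gau v).ne'
    have d2 : HasDerivAt ebt (Real.log (δ * gau v) + 1) (δ * gau v) :=
      Real.hasDerivAt_mul_log hb.ne'
    have e1 := HasDerivAt.comp_hasFDerivAt (h₂ := ebt)
      (f := fun p : ℝ × Vec d × Vec d => unc f p + δ * gau p.2.2) (t, x, v) d1 hA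
    have e2 := HasDerivAt.comp_hasFDerivAt (h₂ := ebt)
      (f := fun p : ℝ × Vec d × Vec d => δ * gau p.2.2) (t, x, v) d2 hG
    have e3 := e1.sub e2
    have e4 : unc (eh δ f) = (ebt ∘ fun p : ℝ × Vec d × Vec d => unc f p + δ * gau p.2.2) -
        (ebt ∘ fun p : ℝ × Vec d × Vec d => δ * gau p.2.2) := rfl
    unfold transport
    rw [e4, e3.fderiv]
    simp only [sub_apply, smul_apply, add_apply, ContinuousLinearMap.comp_apply,
      ContinuousLinearMap.coe_snd', map_zero, smul_eq_mul]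
    rw [hf.eqn t ht x v]
    unfold eS
    ring

private theorem ent_muD : (muD d).real univ = 1 := by
  unfold muD Measure.real
  rw [Measure.restrict_apply_univ, Real.volume_Icc_pi]
  simp

private theorem ent_lim {Q' : ℝ → Vec d → Vec d → ℝ} (hf : IsClassicalSol T Q' f) {t : ℝ}
    (ht : t ∈ Ico 0 T) : Tendsto (fun δ => ∫ q, eh δ f t q.2 q.1 ∂(nu d)) (𝓝[>] 0)
      (𝓝 (∫ q, ebt (f t q.2 q.1) ∂(nu d))) := by
  obtain ⟨K, hK0, hK⟩ := ent_bd hf ht.2
  have cf : Continuous fun q : Vec d × Vec d => f t q.2 q.1 :=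
    (hf.cont_slice ht).comp (by fun_prop : Continuous fun q : Vec d × Vec d => (q.2, q.1))
  have cg : Continuous fun q : Vec d × Vec d => gau q.1 := gau_smooth.continuous.comp continuous_fst
  have hev : ∀ᶠ δ : ℝ in 𝓝[>] 0, δ ∈ Ioo (0 : ℝ) 1 := Ioo_mem_nhdsGT one_pos
  refine tendsto_integral_filter_of_dominated_convergence (fun q => 6 * K * wt d q.1) ?_ ?_ ?_ ?_
  · refine Eventually.of_forall fun δ => ?_
    exact ((ebt_cont.comp (cf.add (continuous_const.mul cg))).sub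
      (ebt_cont.comp (continuous_const.mul cg))).aestronglyMeasurable
  · filter_upwards [hev] with δ hδ
    refine Eventually.of_forall fun q => ?_
    obtain ⟨a1, a2, a3⟩ := hK t ⟨ht.1, le_rfl⟩ q.2 q.1
    have h2 := ent_diff (hf.nonneg t ht q.2 q.1) (mul_pos hδ.1 (gau_pos q.1))
      (by have := gau_le q.1; have := gau_pos q.1; nlinarith [hδ.1, hδ.2])
    rw [Real.norm_eq_abs]
    unfold eh
    linarith
  · exact ((integrable_wt (d := d)).comp_fst (muD d)).const_mul _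
  · refine Eventually.of_forall fun q => ?_
    have hc : Continuous fun δ : ℝ => eh δ f t q.2 q.1 := by
      unfold eh
      exact (ebt_cont.comp (continuous_const.add (continuous_id.mul continuous_const))).sub
        (ebt_cont.comp (continuous_id.mul continuous_const))
    have h2 : eh 0 f t q.2 q.1 = ebt (f t q.2 q.1) := by
      unfold eh
      rw [zero_mul, add_zero, ebt_zero, sub_zero]
    rw [← h2]
    exact (hc.tendsto 0).mono_left nhdsWithin_le_nhds


/-- the pairing of the source with `1` at one time -/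
private theorem ent_src (h1 : -2 < γ) (h2 : γ ≤ 0) (hf : IsLandauSol γ T f)
    (hI : HasInvariants T fun t x => landauQ γ (f t x)) {C : ℕ → ℝ} {δ ε : ℝ}
    (hδ : δ ∈ Ioc (0 : ℝ) 1) {s t : ℝ} (hs : 0 < s) (ht : t < T)
    (hC : ∀ τ ∈ Icc s t, ∀ x, UNice C (f τ x))
    (hh : ∀ g : Vec d → ℝ, UNice C g →
      |(∫ v, landauQ γ g v * Real.log (g v + δ * gau v)) + DL γ δ g| ≤ ε) {τ : ℝ}
    (hτ : τ ∈ Icc s t) :
    pair (fun _ => 1) (eS δ (fun t x => landauQ γ (f t x)) f) τ ≤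
      ε - ∫ x, DL γ δ (f τ x) ∂(muD d) := by
  have H := ent_tsol hf hδ.1 hδ.2
  have hpair : ∀ (h : ℝ → Vec d → Vec d → ℝ) (τ : ℝ),
      pair (fun _ => 1) h τ = ∫ q, h τ q.2 q.1 ∂(nu d) := by
    intro h τ
    unfold pair
    simp only [one_mul]
  have hτ' : τ ∈ Ioo 0 T := ⟨hs.trans_le hτ.1, hτ.2.trans_lt ht⟩
  obtain ⟨K, hK⟩ := H.decS s hs t ht
  obtain ⟨D, hD0, hD⟩ := hf.Q_le hs ht (d + 1)
  have cQ := hf.cont_Q hτ'
  have cf := hf.cont_slice ⟨hτ'.1.le, hτ'.2⟩
  have cL : Continuous fun q : Vec d × Vec d => Real.log (f τ q.1 q.2 + δ * gau q.2) := by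
    refine Continuous.log ?_ fun q => ?_
    · exact cf.add (continuous_const.mul (gau_smooth.continuous.comp continuous_snd))
    · have h2 := hf.nonneg τ ⟨hτ'.1.le, hτ'.2⟩ q.1 q.2
      have h3 := mul_pos hδ.1 (gau_pos q.2)
      exact (by linarith : 0 < f τ q.1 q.2 + δ * gau q.2).ne'
  have cS : Continuous fun q : Vec d × Vec d =>
      eS δ (fun t x => landauQ γ (f t x)) f τ q.2 q.1 := by
    have h2 : Continuous fun q : Vec d × Vec d => (1 + Real.log (f τ q.1 q.2 + δ * gau q.2)) *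
        landauQ γ (f τ q.1) q.2 := (continuous_const.add cL).mul cQ
    exact h2.comp (by fun_prop : Continuous fun q : Vec d × Vec d => (q.2, q.1))
  have iS : Integrable (fun q : Vec d × Vec d =>
      eS δ (fun t x => landauQ γ (f t x)) f τ q.2 q.1) (nu d) :=
    integrable_nu cS.aestronglyMeasurable fun q => hK τ hτ q.2 q.1
  rw [hpair, nu_integral iS]
  have hin : ∀ x : Vec d, ∫ v, eS δ (fun t x => landauQ γ (f t x)) f τ x v ≤
      ε - DL γ δ (f τ x) := by
    intro x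
    have c1 : Continuous fun v : Vec d => landauQ γ (f τ x) v :=
      cQ.comp (by fun_prop : Continuous fun v : Vec d => (x, v))
    have c2 : Continuous fun v : Vec d => Real.log (f τ x v + δ * gau v) :=
      cL.comp (by fun_prop : Continuous fun v : Vec d => (x, v))
    have i1 : Integrable fun v : Vec d => landauQ γ (f τ x) v := by
      refine (integrable_wt.const_mul D).mono' c1.aestronglyMeasurable
        (Eventually.of_forall fun v => ?_)
      exact hD τ hτ x v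
    have i2 : Integrable fun v : Vec d => eS δ (fun t x => landauQ γ (f t x)) f τ x v := by
      refine (integrable_wt.const_mul K).mono' ((continuous_const.add c2).mul
        c1).aestronglyMeasurable (Eventually.of_forall fun v => ?_)
      exact hK τ hτ x v
    have i3 : Integrable fun v : Vec d =>
        landauQ γ (f τ x) v * Real.log (f τ x v + δ * gau v) := by
      refine (i2.sub i1).congr (Eventually.of_forall fun v => ?_)
      simp only [Pi.sub_apply, eS]
      ring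
    have e1 : ∫ v, eS δ (fun t x => landauQ γ (f t x)) f τ x v =
        (∫ v, landauQ γ (f τ x) v) +
          ∫ v, landauQ γ (f τ x) v * Real.log (f τ x v + δ * gau v) := by
      rw [← integral_add i1 i3]
      refine integral_congr_ae (Eventually.of_forall fun v => ?_)
      simp only [eS]
      ring
    rw [e1, (hI τ hτ' x).1, zero_add]
    have h4 := (abs_le.1 (hh (f τ x) (hC τ hτ x))).2
    linarith
  have hint : Integrable (fun x : Vec d =>
      ∫ v, eS δ (fun t x => landauQ γ (f t x)) f τ x v) (muD d) := by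
    have := iS
    unfold nu at this
    exact this.integral_prod_right
  have hDi := dl_int h1 h2 hf hδ hτ'
  calc ∫ x, (∫ v, eS δ (fun t x => landauQ γ (f t x)) f τ x v) ∂(muD d) ≤
        ∫ x, (ε - DL γ δ (f τ x)) ∂(muD d) :=
        integral_mono hint ((integrable_const ε).sub hDi) hin
    _ = ε - ∫ x, DL γ δ (f τ x) ∂(muD d) := by
        rw [integral_sub (integrable_const ε) hDi, integral_const, ent_muD, one_smul]

private theorem ent_stepD (hd : 2 ≤ d) (h1 : -2 < γ) (h2 : γ ≤ 0) (hf : IsLandauSol γ T f) {s t : ℝ}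
    (hs : 0 < s) (hst : s < t) (ht : t < T) {ε : ℝ} (hε : 0 < ε) :
    ∃ δ₀ > 0, δ₀ ≤ 1 ∧ ∀ δ ∈ Ioc (0 : ℝ) δ₀,
      (∫ q, eh δ f t q.2 q.1 ∂(nu d)) + (∫ τ in s..t, ∫ x, DL γ δ (f τ x) ∂(muD d)) ≤
        (∫ q, eh δ f s q.2 q.1 ∂(nu d)) + ε * (t - s) := by
  have _ := hd
  obtain ⟨C, hC⟩ := sol_unice hf hs ht
  obtain ⟨δ₀, hδ₀, hδ₁, hh⟩ := dl_rem (d := d) h1 h2 C hε
  have hI : HasInvariants T fun t x => landauQ γ (f t x) := by
    intro t ht x
    have hn := IsClassicalSol.nice hf ht x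
    exact ⟨landauQ_mass h1 h2 hn, landauQ_momentum h1 h2 hn, landauQ_energy h1 h2 hn⟩
  refine ⟨δ₀, hδ₀, hδ₁, fun δ hδ => ?_⟩
  have hδI : δ ∈ Ioc (0 : ℝ) 1 := ⟨hδ.1, hδ.2.trans hδ₁⟩
  have H := ent_tsol hf hδI.1 hδI.2
  have hφ : Continuous fun _ : Vec d × Vec d => (1 : ℝ) := continuous_const
  have hb : ∀ q : Vec d × Vec d, |(fun _ : Vec d × Vec d => (1 : ℝ)) q| ≤ 1 := fun _ => by simp
  have hp : ∀ v : Vec d, Per fun y => (fun _ : Vec d × Vec d => (1 : ℝ)) (v, y) :=
    fun _ _ _ => rfl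
  have h3 := H.ftc hφ hb hp hs hst.le ht
  have hpair : ∀ (h : ℝ → Vec d → Vec d → ℝ) (τ : ℝ),
      pair (fun _ => 1) h τ = ∫ q, h τ q.2 q.1 ∂(nu d) := by
    intro h τ
    unfold pair
    simp only [one_mul]
  have hcS := H.pairS_cont hφ hb hp
  have hii : IntervalIntegrable
      (pair (fun _ => 1) (eS δ (fun t x => landauQ γ (f t x)) f)) volume s t := by
    refine ContinuousOn.intervalIntegrable_of_Icc hst.le (hcS.mono fun τ hτ => ?_)
    exact ⟨hs.trans_le hτ.1, hτ.2.trans_lt ht⟩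
  have hDii := dl_ii h1 h2 hf hδI hs hst ht
  have h4 : ∫ τ in s..t, pair (fun _ => 1) (eS δ (fun t x => landauQ γ (f t x)) f) τ ≤
      ∫ τ in s..t, (ε - ∫ x, DL γ δ (f τ x) ∂(muD d)) :=
    intervalIntegral.integral_mono_on hst.le hii (intervalIntegrable_const.sub hDii)
      fun τ hτ => ent_src h1 h2 hf hI hδI hs ht hC (hh δ hδ) hτ
  rw [intervalIntegral.integral_sub intervalIntegrable_const hDii,
    intervalIntegral.integral_const, smul_eq_mul] at h4
  rw [← h3, hpair, hpair] at h4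
  linarith

theorem ent_diss (hd : 2 ≤ d) (h1 : -2 < γ) (h2 : γ ≤ 0) (hf : IsLandauSol γ T f) {t₁ t₂ : ℝ}
    (h0 : 0 < t₁) (h12 : t₁ < t₂) (h3 : t₂ < T) {η : ℝ} (hη : 0 < η) :
    ∃ δ₁ > 0, δ₁ ≤ 1 ∧ ∀ δ ∈ Ioc (0 : ℝ) δ₁,
      ∫ t in t₁..t₂, ∫ x, DL γ δ (f t x) ∂(muD d) ≤
        (∫ q, f t₁ q.2 q.1 * Real.log (f t₁ q.2 q.1) ∂(nu d)) -
          (∫ q, f t₂ q.2 q.1 * Real.log (f t₂ q.2 q.1) ∂(nu d)) + η := by
  have hts : 0 < t₂ - t₁ := by linarith
  obtain ⟨δ₀, hδ₀, hδ₁, h⟩ := ent_stepD hd h1 h2 hf h0 h12 h3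
    (ε := η / 3 / (t₂ - t₁)) (by positivity)
  have l1 := ent_lim hf (t := t₁) ⟨h0.le, h12.trans h3⟩
  have l2 := ent_lim hf (t := t₂) ⟨(h0.trans h12).le, h3⟩
  rw [Metric.tendsto_nhdsWithin_nhds] at l1 l2
  obtain ⟨r1, hr1, k1⟩ := l1 (η / 3) (by linarith)
  obtain ⟨r2, hr2, k2⟩ := l2 (η / 3) (by linarith)
  refine ⟨min δ₀ (min (r1 / 2) (r2 / 2)), lt_min hδ₀ (lt_min (by linarith) (by linarith)),
    (min_le_left _ _).trans hδ₁, fun δ hδ => ?_⟩
  have hd0 : δ ≤ δ₀ := hδ.2.trans (min_le_left _ _)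
  have hd1 : δ ≤ r1 / 2 := hδ.2.trans ((min_le_right _ _).trans (min_le_left _ _))
  have hd2 : δ ≤ r2 / 2 := hδ.2.trans ((min_le_right _ _).trans (min_le_right _ _))
  have e0 := h δ ⟨hδ.1, hd0⟩
  have e1 := k1 hδ.1 (by rw [Real.dist_eq, sub_zero, abs_of_pos hδ.1]; linarith)
  have e2 := k2 hδ.1 (by rw [Real.dist_eq, sub_zero, abs_of_pos hδ.1]; linarith)
  rw [Real.dist_eq] at e1 e2
  have e3 := abs_lt.1 e1
  have e4 := abs_lt.1 e2
  have e5 : η / 3 / (t₂ - t₁) * (t₂ - t₁) = η / 3 := div_mul_cancel₀ _ hts.ne'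
  rw [e5] at e0
  have e6 : ∀ t, ∫ q, ebt (f t q.2 q.1) ∂(nu d) =
      ∫ q, f t q.2 q.1 * Real.log (f t q.2 q.1) ∂(nu d) := fun t => rfl
  rw [e6] at e3 e4
  linarith [e3.1, e3.2, e4.1, e4.2]

end Pool.Agent.H15.EL
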