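import Pool.Agent.H15.EL.EntS
import Pool.Agent.H48.LN.ReL

/-!
# The entropy inequality with dissipation along a solution (MODULE EL_Fin)

`EntL` from `dl_nonneg` (with `sol_unice`), `dl_int`, `dl_ii`, `ent_diss`; `RE (f t₁) - RE (f t₂)` is the difference of the entropies by `re_formula` and the conservation laws (as in `re_antiL`, H48/LN/ReL.lean).
-/

set_option autoImplicit false

open MeasureTheory Set Filter Topology Pool.Agent.H25.Kin Pool.Agent.H15.AV Pool.Agent.H37.LN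

namespace Pool.Agent.H15.EL

variable {d : ℕ} {γ : ℝ}

private theorem fin_pos1 : Pos (fun _ : Vec d => (1 : ℝ)) 1 where
  per := fun _ _ => rfl
  smooth := contDiff_const
  le0 := fun _ => by simp
  le1 := fun x => by
    have h : fderiv ℝ (fun _ : Vec d => (1 : ℝ)) x = 0 := by simp
    rw [h, norm_zero]
    exact zero_le_one

private theorem fin_mom {T : ℝ} {f Q' : ℝ → Vec d → Vec d → ℝ} (hf : IsClassicalSol T Q' f)
    {p : Vec d → ℝ} (hp : PG p) (hpc : Continuous p)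
    (hQ : ∀ s ∈ Ioo 0 T, ∀ x, ∫ v, Q' s x v * p v = 0) {t : ℝ} (ht : t ∈ Ico 0 T) :
    mom (fun _ => 1) p f t = mom (fun _ => 1) p f 0 := by
  rcases ht.1.eq_or_lt with h0 | h0
  · rw [← h0]
  · have hd : ∀ s ∈ Ioo 0 t, HasDerivAt (mom (fun _ => 1) p f) 0 s := by
      intro s hs
      have h1 := mom_hasDerivAt fin_pos1 hp hpc hf ⟨hs.1, hs.2.trans ht.2⟩
        (hQ s ⟨hs.1, hs.2.trans ht.2⟩)
      refine h1.congr_deriv ?_
      simp
    obtain ⟨c, -, hc⟩ := exists_hasDerivAt_eq_slope (mom (fun _ => 1) p f) (fun _ => 0) h0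
      (mom_cont fin_pos1 hp hpc hf ht.2) hd
    rw [sub_zero, eq_comm, div_eq_zero_iff] at hc
    rcases hc with hc | hc
    · linarith
    · exact absurd hc h0.ne'

/-- the difference of the relative entropies is the difference of the entropies -/
theorem re_sub (hd : 2 ≤ d) (h1 : -2 < γ) (h2 : γ ≤ 0) {a k : ℝ} (ha : 0 < a) (hk : 0 < k)
    (u : Vec d) {T : ℝ} {f : ℝ → Vec d → Vec d → ℝ} (hf : IsLandauSol γ T f) {s t : ℝ}
    (hs : s ∈ Ico 0 T) (ht : t ∈ Ico 0 T) :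
    Pool.Agent.H48.NE.RE a k u (f s) - Pool.Agent.H48.NE.RE a k u (f t) =
      (∫ q, f s q.2 q.1 * Real.log (f s q.2 q.1) ∂(nu d)) -
        ∫ q, f t q.2 q.1 * Real.log (f t q.2 q.1) ∂(nu d) := by
  have hI := Pool.Agent.H48.LN.landau_inv hd h1 h2 hf
  have e2 := fun r (hr : r ∈ Ico 0 T) =>
    Pool.Agent.H15.AV.mass_const (Q := landauQ γ) hf hI hr
  have e3 := fun r (hr : r ∈ Ico 0 T) =>
    Pool.Agent.H15.AV.energy_const (Q := landauQ γ) hf hI hr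
  have e4 : ∀ r ∈ Ico 0 T, ∀ i : Fin d, ∫ q, f r q.2 q.1 * q.1 i ∂(nu d) =
      ∫ q, f 0 q.2 q.1 * q.1 i ∂(nu d) := by
    intro r hr i
    have h5 := fin_mom hf (p := fun v => v i) (PG.coord i) (continuous_apply i)
      (fun s hs x => (hI s hs x).2.1 i) hr
    unfold mom at h5
    simp only [one_mul] at h5
    have e : ∀ r : ℝ, ∫ q, f r q.2 q.1 * q.1 i ∂(nu d) =
        ∫ q, q.1 i * f r q.2 q.1 ∂(nu d) :=
      fun r => integral_congr_ae (Eventually.of_forall fun q => mul_comm _ _)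
    rw [e r, e 0, h5]
  rw [Pool.Agent.H48.NE.re_formula ha hk u (Pool.Agent.H15.AV.sol_slice hf hs),
    Pool.Agent.H48.NE.re_formula ha hk u (Pool.Agent.H15.AV.sol_slice hf ht), e2 s hs, e2 t ht,
    e3 s hs, e3 t ht]
  simp only [e4 s hs, e4 t ht]
  ring

/-- INTERFACE `EntL` of H37/LN/Defs -/
theorem entL (hd : 2 ≤ d) (h1 : -2 < γ) (h2 : γ ≤ 0) : EntL d γ := by
  intro a k ha hk u T f hf t₁ t₂ h0 h12 h3 η hη
  obtain ⟨C, hC⟩ := sol_unice hf h0 h3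
  obtain ⟨δ₁, hδ₁, hδ1, h⟩ := ent_diss hd h1 h2 hf h0 h12 h3 hη
  refine ⟨δ₁, hδ₁, fun δ hδ => ?_⟩
  have hδI : δ ∈ Ioc (0 : ℝ) 1 := ⟨hδ.1, hδ.2.trans hδ1⟩
  refine ⟨fun t ht x => dl_nonneg h1 h2 (hC t ht x) hδI,
    fun t ht => dl_int h1 h2 hf hδI ⟨h0.trans_le ht.1, ht.2.trans_lt h3⟩,
    dl_ii h1 h2 hf hδI h0 h12 h3, ?_⟩
  rw [re_sub hd h1 h2 ha hk u hf ⟨h0.le, h12.trans h3⟩ ⟨(h0.trans h12).le, h3⟩]
  exact h δ hδ

end Pool.Agent.H15.EL
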